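import Mathlib

/-!
MP_2fe121_gt, Q1 (positive answer): an embedding of the closed 4-ball into `S² × ℝ²` whose projection
to `S²` is an open map. The embedding is `(z, v) ↦ ([1 + z v : z], v)` on the product of the disks
`|z| ≤ 2` and `|v| ≤ 1`, with `S² = ℂP¹`.
-/

set_option autoImplicit false

namespace Pool.Agent.Results.MP_2fe121_gt.OpenProjection

open Set Metric Filter Topology

/-- The closed unit ball of `ℝ⁴`. -/
abbrev D4 : Type := closedBall (0 : EuclideanSpace ℝ (Fin 4)) 1

/-- The unit sphere of `ℝ³`. -/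
abbrev S2 : Type := sphere (0 : EuclideanSpace ℝ (Fin 3)) 1

abbrev E4 : Type := EuclideanSpace ℝ (Fin 4)
abbrev E3 : Type := EuclideanSpace ℝ (Fin 3)
abbrev E2 : Type := EuclideanSpace ℝ (Fin 2)

/-! ### The map to the sphere -/

/-- `|a|² + |b|²` for `a = 1 + z v`, `b = z`. -/
noncomputable def nn (z v : ℂ) : ℝ := Complex.normSq (1 + z * v) + Complex.normSq z

theorem nn_pos (z v : ℂ) : 0 < nn z v := by
  unfold nn
  by_cases hz : z = 0
  · subst hz
    simp
  · have h1 := Complex.normSq_pos.2 hz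
    have h2 := Complex.normSq_nonneg (1 + z * v)
    linarith

/-- The complex coordinate of the point `[1 + z v : z]`. -/
noncomputable def xi (z v : ℂ) : ℂ := 2 * ((1 + z * v) * (starRingEnd ℂ) z) / (nn z v : ℂ)

/-- The real coordinate of the point `[1 + z v : z]`. -/
noncomputable def tt (z v : ℂ) : ℝ :=
  (Complex.normSq (1 + z * v) - Complex.normSq z) / nn z v

theorem on_sphere (z v : ℂ) : Complex.normSq (xi z v) + tt z v ^ 2 = 1 := by
  have hn := nn_pos z v
  unfold xi tt
  rw [Complex.normSq_div, Complex.normSq_mul, Complex.normSq_mul, Complex.normSq_conj,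
    Complex.normSq_ofReal]
  have h2 : Complex.normSq 2 = 4 := by
    rw [Complex.normSq_apply]
    norm_num
  rw [h2, div_pow, div_add_div _ _ (by positivity) (by positivity), div_eq_one_iff_eq (by positivity)]
  unfold nn
  ring

/-- The point of `ℝ³` with complex coordinate `ξ` and real coordinate `t`. -/
noncomputable def pt (ξ : ℂ) (t : ℝ) : E3 := !₂[ξ.re, ξ.im, t]

theorem pt_mem {ξ : ℂ} {t : ℝ} (h : Complex.normSq ξ + t ^ 2 = 1) :
    pt ξ t ∈ sphere (0 : E3) 1 := by
  rw [mem_sphere, dist_zero_right, EuclideanSpace.norm_eq, Fin.sum_univ_three]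
  simp only [pt, Real.norm_eq_abs, sq_abs]
  change Real.sqrt (ξ.re ^ 2 + ξ.im ^ 2 + t ^ 2) = 1
  rw [Complex.normSq_apply] at h
  have : ξ.re ^ 2 + ξ.im ^ 2 + t ^ 2 = 1 := by
    rw [← h]
    ring
  rw [this, Real.sqrt_one]

/-- The complex coordinate of a point of the sphere. -/
noncomputable def cx (p : S2) : ℂ := ⟨p.1 0, p.1 1⟩

/-- The real coordinate of a point of the sphere. -/
noncomputable def rt (p : S2) : ℝ := p.1 2

theorem cx_rt (p : S2) : Complex.normSq (cx p) + rt p ^ 2 = 1 := by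
  have h := p.2
  rw [mem_sphere, dist_zero_right, EuclideanSpace.norm_eq, Fin.sum_univ_three] at h
  simp only [Real.norm_eq_abs, sq_abs] at h
  rw [Real.sqrt_eq_one] at h
  rw [Complex.normSq_apply]
  simp only [cx, rt]
  linarith

theorem cx_cont : Continuous cx := by
  have : cx = fun p : S2 => (p.1 0 : ℂ) + (p.1 1 : ℂ) * Complex.I := by
    funext p
    apply Complex.ext <;> simp [cx]
  rw [this]
  fun_prop

theorem rt_cont : Continuous rt := by
  unfold rt
  fun_prop

/-- The map `(z, v) ↦ [1 + z v : z]`. -/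
noncomputable def f (z v : ℂ) : S2 := ⟨pt (xi z v) (tt z v), pt_mem (on_sphere z v)⟩

theorem cx_f (z v : ℂ) : cx (f z v) = xi z v := by
  apply Complex.ext <;> rfl

theorem rt_f (z v : ℂ) : rt (f z v) = tt z v := rfl

theorem S2_ext {p q : S2} (h1 : cx p = cx q) (h2 : rt p = rt q) : p = q := by
  apply Subtype.ext
  ext i
  fin_cases i
  · exact congrArg Complex.re h1
  · exact congrArg Complex.im h1
  · exact h2

theorem nn_cont : Continuous fun q : ℂ × ℂ => nn q.1 q.2 := by
  unfold nn
  exact (Complex.continuous_normSq.comp (by fun_prop)).add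
    (Complex.continuous_normSq.comp (by fun_prop))

theorem f_cont : Continuous fun q : ℂ × ℂ => f q.1 q.2 := by
  apply Continuous.subtype_mk
  have h1 : Continuous fun q : ℂ × ℂ => xi q.1 q.2 := by
    unfold xi
    refine Continuous.div (by fun_prop) (Complex.continuous_ofReal.comp nn_cont) ?_
    intro q
    exact_mod_cast (nn_pos q.1 q.2).ne'
  have h2 : Continuous fun q : ℂ × ℂ => tt q.1 q.2 := by
    unfold tt
    refine Continuous.div ?_ nn_cont fun q => (nn_pos q.1 q.2).ne'
    exact (Complex.continuous_normSq.comp (by fun_prop)).sub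
      (Complex.continuous_normSq.comp (by fun_prop))
  unfold pt
  fun_prop

/-! ### Local inverses -/

/-- A formula for points of the sphere with projective coordinates `[a : b]`. -/
theorem proj_formula {a b : ℂ} {p : S2} (hab : 2 * (a * (starRingEnd ℂ) b) =
    ((Complex.normSq a + Complex.normSq b : ℝ) : ℂ) * cx p)
    (hab' : Complex.normSq a - Complex.normSq b =
      (Complex.normSq a + Complex.normSq b) * rt p) {q : ℂ} (hq : q ≠ 0) {z v : ℂ}
    (hz : z = b / q) (hz' : 1 + z * v = a / q) : f z v = p := by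
  have hn := nn_pos z v
  have hq2 : Complex.normSq q ≠ 0 := (Complex.normSq_pos.2 hq).ne'
  have hnn : nn z v = (Complex.normSq a + Complex.normSq b) / Complex.normSq q := by
    unfold nn
    rw [hz', hz, Complex.normSq_div, Complex.normSq_div]
    ring
  have hs : Complex.normSq a + Complex.normSq b ≠ 0 := by
    intro h
    rw [hnn, h, zero_div] at hn
    exact lt_irrefl _ hn
  apply S2_ext
  · rw [cx_f]
    unfold xi
    rw [div_eq_iff (by exact_mod_cast hn.ne'), hz', hnn, hz, map_div₀]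
    push_cast
    have e : (Complex.normSq q : ℂ) = q * (starRingEnd ℂ) q := (Complex.mul_conj q).symm
    have hqc : (starRingEnd ℂ) q ≠ 0 := by
      rw [Ne, map_eq_zero]
      exact hq
    rw [e]
    have e2 : 2 * (a / q * ((starRingEnd ℂ) b / (starRingEnd ℂ) q)) =
        2 * (a * (starRingEnd ℂ) b) / (q * (starRingEnd ℂ) q) := by
      field_simp
    rw [e2, hab]
    push_cast
    ring
  · rw [rt_f]
    unfold tt
    rw [div_eq_iff hn.ne', hz', hnn, hz, Complex.normSq_div, Complex.normSq_div, ← sub_div, hab']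
    ring

/-- The first local inverse (valid where `t ≠ -1`). -/
theorem inv1 {p : S2} {v : ℂ}
    (h2 : (1 + rt p : ℂ) - v * (starRingEnd ℂ) (cx p) ≠ 0) :
    f ((starRingEnd ℂ) (cx p) / ((1 + rt p : ℂ) - v * (starRingEnd ℂ) (cx p))) v = p := by
  have hs := cx_rt p
  have e : Complex.normSq (1 + rt p : ℂ) = (1 + rt p) ^ 2 := by
    have : (1 + rt p : ℂ) = ((1 + rt p : ℝ) : ℂ) := by push_cast; ring
    rw [this, Complex.normSq_ofReal]
    ring
  refine proj_formula (a := (1 + rt p : ℂ)) (b := (starRingEnd ℂ) (cx p)) ?_ ?_ h2 rfl ?_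
  · rw [e, Complex.normSq_conj, Complex.conj_conj]
    have : (1 + rt p) ^ 2 + Complex.normSq (cx p) = 2 * (1 + rt p) := by
      nlinarith
    rw [this]
    push_cast
    ring
  · rw [e, Complex.normSq_conj]
    nlinarith
  · rw [eq_div_iff h2, add_mul, div_mul_eq_mul_div, div_mul_cancel₀ _ h2]
    ring

/-- The second local inverse (valid where `t ≠ 1`). -/
theorem inv2 {p : S2} {v : ℂ}
    (h2 : cx p - v * (1 - rt p : ℂ) ≠ 0) :
    f ((1 - rt p : ℂ) / (cx p - v * (1 - rt p : ℂ))) v = p := by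
  have hs := cx_rt p
  have e : Complex.normSq (1 - rt p : ℂ) = (1 - rt p) ^ 2 := by
    have : (1 - rt p : ℂ) = ((1 - rt p : ℝ) : ℂ) := by push_cast; ring
    rw [this, Complex.normSq_ofReal]
    ring
  have e' : (starRingEnd ℂ) (1 - rt p : ℂ) = (1 - rt p : ℂ) := by
    rw [map_sub, map_one, Complex.conj_ofReal]
  refine proj_formula (a := cx p) (b := (1 - rt p : ℂ)) ?_ ?_ h2 rfl ?_
  · rw [e, e']
    have : Complex.normSq (cx p) + (1 - rt p) ^ 2 = 2 * (1 - rt p) := by
      nlinarith
    rw [this]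
    push_cast
    ring
  · rw [e]
    nlinarith
  · rw [eq_div_iff h2, add_mul, div_mul_eq_mul_div, div_mul_cancel₀ _ h2]
    ring

/-- `z ↦ f z v` has a local section through every point. -/
theorem local_section (z v : ℂ) : ∃ G : S2 → ℂ, ContinuousAt G (f z v) ∧ G (f z v) = z ∧
    ∀ᶠ p in 𝓝 (f z v), f (G p) v = p := by
  have hn := nn_pos z v
  have hnc : (nn z v : ℂ) ≠ 0 := by exact_mod_cast hn.ne'
  by_cases ha : 1 + z * v = 0
  · -- use the second local inverse
    have hz : z ≠ 0 := by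
      rintro rfl
      simp at ha
    have hzc : (starRingEnd ℂ) z ≠ 0 := by
      rw [Ne, map_eq_zero]
      exact hz
    have hnz : Complex.normSq z ≠ 0 := (Complex.normSq_pos.2 hz).ne'
    have hrt : rt (f z v) = -1 := by
      rw [rt_f]
      unfold tt nn
      rw [ha]
      simp only [map_zero, zero_sub, zero_add]
      rw [neg_div, div_self hnz]
    have hcx : cx (f z v) = 0 := by
      rw [cx_f]
      unfold xi
      rw [ha]
      simp
    have hden : cx (f z v) - v * (1 - rt (f z v) : ℂ) ≠ 0 := by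
      rw [hrt, hcx]
      intro h
      have hv : v = 0 := by
        push_cast at h
        have : v * (1 - -1) = 0 := by
          rw [← neg_eq_zero, ← h]
          ring
        rcases mul_eq_zero.1 this with h | h
        · exact h
        · norm_num at h
      rw [hv] at ha
      simp at ha
    refine ⟨fun p => (1 - rt p : ℂ) / (cx p - v * (1 - rt p : ℂ)), ?_, ?_, ?_⟩
    · have c1 := cx_cont
      have c2 := rt_cont
      apply ContinuousAt.div
      · fun_prop
      · fun_prop
      · exact hden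
    · rw [div_eq_iff hden, hrt, hcx]
      push_cast
      have : z * (0 - v * (1 - -1)) = -2 * (z * v) := by ring
      rw [this]
      have : z * v = -1 := by linear_combination ha
      rw [this]
      norm_num
    · have c1 := cx_cont
      have c2 := rt_cont
      have o2 : ∀ᶠ p in 𝓝 (f z v), cx p - v * (1 - rt p : ℂ) ≠ 0 := by
        apply (isOpen_ne_fun (by fun_prop) (by fun_prop)).mem_nhds
        exact hden
      filter_upwards [o2] with p h2
      exact inv2 h2
  · -- use the first local inverse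
    have hac : (starRingEnd ℂ) (1 + z * v) ≠ 0 := by
      rw [Ne, map_eq_zero]
      exact ha
    have ha2 : 0 < Complex.normSq (1 + z * v) := Complex.normSq_pos.2 ha
    have hrt : (1 + rt (f z v) : ℝ) = 2 * Complex.normSq (1 + z * v) / nn z v := by
      rw [rt_f]
      unfold tt
      rw [eq_div_iff hn.ne', add_mul, div_mul_cancel₀ _ hn.ne']
      unfold nn
      ring
    have hrt' : (1 + rt (f z v) : ℂ) =
        2 * ((1 + z * v) * (starRingEnd ℂ) (1 + z * v)) / (nn z v : ℂ) := by
      rw [Complex.mul_conj]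
      exact_mod_cast hrt
    have hcx : (starRingEnd ℂ) (cx (f z v)) =
        2 * ((starRingEnd ℂ) (1 + z * v) * z) / (nn z v : ℂ) := by
      rw [cx_f]
      unfold xi
      rw [map_div₀, map_mul, map_mul, Complex.conj_conj, Complex.conj_ofReal]
      congr 2
      exact map_ofNat _ 2
    have hdeneq : (1 + rt (f z v) : ℂ) - v * (starRingEnd ℂ) (cx (f z v)) =
        2 * (starRingEnd ℂ) (1 + z * v) / (nn z v : ℂ) := by
      rw [hrt', hcx]
      field_simp
      ring
    have hden : (1 + rt (f z v) : ℂ) - v * (starRingEnd ℂ) (cx (f z v)) ≠ 0 := by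
      rw [hdeneq]
      exact div_ne_zero (mul_ne_zero two_ne_zero hac) hnc
    have c1 := cx_cont
    have c2 := rt_cont
    have c3 : Continuous fun p : S2 => (starRingEnd ℂ) (cx p) := Complex.continuous_conj.comp c1
    refine ⟨fun p => (starRingEnd ℂ) (cx p) / ((1 + rt p : ℂ) - v * (starRingEnd ℂ) (cx p)),
      ?_, ?_, ?_⟩
    · apply ContinuousAt.div
      · exact c3.continuousAt
      · have : Continuous fun p : S2 => ((1 + rt p : ℂ) - v * (starRingEnd ℂ) (cx p)) := by
          fun_prop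
        exact this.continuousAt
      · exact hden
    · simp only
      rw [hdeneq, hcx, div_div_div_cancel_right₀ hnc, mul_div_mul_left _ _ two_ne_zero,
        mul_div_cancel_left₀ _ hac]
    · have o2 : ∀ᶠ p in 𝓝 (f z v), (1 + rt p : ℂ) - v * (starRingEnd ℂ) (cx p) ≠ 0 := by
        apply (isOpen_ne_fun (by fun_prop) (by fun_prop)).mem_nhds
        exact hden
      filter_upwards [o2] with p h2
      exact inv1 h2

/-! ### Moving boundary points into the interior along the fibre -/

theorem f_move {z v δ : ℂ} (hδ : 1 - z * δ ≠ 0) : f (z / (1 - z * δ)) (v + δ) = f z v := by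
  have hn := nn_pos z v
  have hnc : (nn z v : ℂ) ≠ 0 := by exact_mod_cast hn.ne'
  refine proj_formula (a := 1 + z * v) (b := z) ?_ ?_ hδ rfl ?_
  · rw [cx_f]
    unfold xi
    change _ = ((nn z v : ℝ) : ℂ) * _
    rw [mul_div_cancel₀ _ hnc]
  · rw [rt_f]
    unfold tt
    change _ = nn z v * _
    rw [mul_div_cancel₀ _ hn.ne']
  · rw [eq_div_iff hδ, add_mul, div_mul_eq_mul_div, div_mul_cancel₀ _ hδ]
    ring

/-- Rational parametrisation of the unit circle. -/
noncomputable def om (τ : ℝ) : ℂ := ⟨(1 - τ ^ 2) / (1 + τ ^ 2), 2 * τ / (1 + τ ^ 2)⟩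

theorem om_normSq (τ : ℝ) : Complex.normSq (om τ) = 1 := by
  rw [Complex.normSq_apply]
  simp only [om]
  have : (1 + τ ^ 2) ≠ 0 := by positivity
  field_simp
  ring

theorem om_norm (τ : ℝ) : ‖om τ‖ = 1 := by
  have h := om_normSq τ
  rw [Complex.normSq_eq_norm_sq] at h
  have h2 := norm_nonneg (om τ)
  nlinarith

theorem om_zero : om 0 = 1 := by
  apply Complex.ext <;> simp [om]

theorem om_cont : Continuous om := by
  have : om = fun τ : ℝ => (((1 - τ ^ 2) / (1 + τ ^ 2) : ℝ) : ℂ) +
      ((2 * τ / (1 + τ ^ 2) : ℝ) : ℂ) * Complex.I := by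
    funext τ
    exact Complex.mk_eq_add_mul_I _ _
  rw [this]
  have h : ∀ τ : ℝ, 1 + τ ^ 2 ≠ 0 := fun τ => by positivity
  have c1 : Continuous fun τ : ℝ => (1 - τ ^ 2) / (1 + τ ^ 2) :=
    Continuous.div (by fun_prop) (by fun_prop) h
  have c2 : Continuous fun τ : ℝ => 2 * τ / (1 + τ ^ 2) :=
    Continuous.div (by fun_prop) (by fun_prop) h
  exact (Complex.continuous_ofReal.comp c1).add
    ((Complex.continuous_ofReal.comp c2).mul continuous_const)

/-- The key inequality when `|v| = 1`. -/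
theorem key_ineq {z v : ℂ} (hz : ‖z‖ = 2) (hv : ‖v‖ = 1) {τ : ℝ} (hτ : τ ≠ 0)
    (hsign : 0 ≤ (z * v).im * τ) : 1 < Complex.normSq (1 - z * (v * om τ - v)) := by
  set u := z * v with hu
  have hun : Complex.normSq u = 4 := by
    rw [hu, Complex.normSq_mul, Complex.normSq_eq_norm_sq, Complex.normSq_eq_norm_sq, hz, hv]
    norm_num
  have e : 1 - z * (v * om τ - v) = 1 + u - u * om τ := by
    rw [hu]
    ring
  rw [e]
  have hre : -2 ≤ u.re := by
    have h1 := Complex.abs_re_le_norm u
    have h2 : ‖u‖ = 2 := by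
      rw [hu, norm_mul, hz, hv]
      norm_num
    rw [h2] at h1
    exact (abs_le.1 h1).1
  rw [Complex.normSq_apply] at hun ⊢
  simp only [Complex.sub_re, Complex.add_re, Complex.one_re, Complex.mul_re, Complex.sub_im,
    Complex.add_im, Complex.one_im, Complex.mul_im, zero_add, om]
  have hp : 0 < 1 + τ ^ 2 := by positivity
  have hτ2 : 0 < τ ^ 2 := by positivity
  set c := (1 - τ ^ 2) / (1 + τ ^ 2) with hc
  set d := 2 * τ / (1 + τ ^ 2) with hd
  have hcd : c ^ 2 + d ^ 2 = 1 := by
    rw [hc, hd]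
    field_simp
    ring
  have h1c : 1 - c = 2 * τ ^ 2 / (1 + τ ^ 2) := by
    rw [hc]
    field_simp
    ring
  have hpos : 0 < 1 - c := by
    rw [h1c]
    positivity
  have hd' : 0 ≤ u.im * d := by
    rw [hd]
    have : u.im * (2 * τ / (1 + τ ^ 2)) = 2 * (u.im * τ) / (1 + τ ^ 2) := by ring
    rw [this]
    positivity
  -- `|1 + u - u ω|² = 1 + 2 (Re u + 4) (1 - c) + 2 Im u d`
  have key : (1 + u.re - (u.re * c - u.im * d)) * (1 + u.re - (u.re * c - u.im * d)) +
      (u.im - (u.re * d + u.im * c)) * (u.im - (u.re * d + u.im * c)) =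
      1 + 2 * (u.re + (u.re * u.re + u.im * u.im)) * (1 - c) + 2 * (u.im * d) +
        (u.re * u.re + u.im * u.im) * (c ^ 2 + d ^ 2 - 1) := by
    ring
  rw [key, hcd, hun]
  nlinarith

theorem normSq_lt {a : ℂ} (h : 1 < Complex.normSq a) : 1 < ‖a‖ := by
  rw [Complex.normSq_eq_norm_sq] at h
  have := norm_nonneg a
  nlinarith

/-- A point with `|z| = 2` can be moved to an arbitrarily close point with `|z| < 2` and the same
image. -/
theorem move {z v : ℂ} (hz : ‖z‖ = 2) (hv : ‖v‖ ≤ 1) {W : Set (ℂ × ℂ)} (hW : W ∈ 𝓝 (z, v)) :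
    ∃ z1 v1 : ℂ, ‖z1‖ < 2 ∧ ‖v1‖ ≤ 1 ∧ (z1, v1) ∈ W ∧ f z1 v1 = f z v := by
  have hz0 : z ≠ 0 := by
    rintro rfl
    simp at hz
  -- it suffices to find a small `δ`
  have hcont : ContinuousAt (fun δ : ℂ => (z / (1 - z * δ), v + δ)) 0 := by
    apply ContinuousAt.prodMk
    · apply ContinuousAt.div continuousAt_const (by fun_prop)
      simp
    · fun_prop
  have hW' : ∀ᶠ δ in 𝓝 (0 : ℂ), (z / (1 - z * δ), v + δ) ∈ W := by
    apply hcont
    simpa using hW
  have main : ∀ δ : ℂ, (z / (1 - z * δ), v + δ) ∈ W → ‖v + δ‖ ≤ 1 → 1 < ‖1 - z * δ‖ →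
      ∃ z1 v1 : ℂ, ‖z1‖ < 2 ∧ ‖v1‖ ≤ 1 ∧ (z1, v1) ∈ W ∧ f z1 v1 = f z v := by
    intro δ h1 h2 h3
    refine ⟨_, _, ?_, h2, h1, f_move ?_⟩
    · rw [norm_div, hz, div_lt_iff₀ (by linarith)]
      linarith
    · intro h
      rw [h, norm_zero] at h3
      linarith
  rcases hv.lt_or_eq with hv1 | hv1
  · -- interior `v`
    have hc2 : Continuous fun τ : ℝ => -((τ : ℂ) / z) := by
      fun_prop
    have h1 : ∀ᶠ τ : ℝ in 𝓝 (0 : ℝ), (z / (1 - z * -((τ : ℂ) / z)), v + -((τ : ℂ) / z)) ∈ W := by
      have : Tendsto (fun τ : ℝ => -((τ : ℂ) / z)) (𝓝 0) (𝓝 0) := by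
        have := hc2.tendsto 0
        simpa using this
      exact this.eventually hW'
    have h2 : ∀ᶠ τ : ℝ in 𝓝 (0 : ℝ), ‖v + -((τ : ℂ) / z)‖ < 1 := by
      have hc3 : Continuous fun τ : ℝ => ‖v + -((τ : ℂ) / z)‖ := (continuous_const.add hc2).norm
      have := hc3.tendsto 0
      refine this.eventually (gt_mem_nhds ?_)
      simpa using hv1
    obtain ⟨τ, ⟨hτ1, hτ2⟩, hτ0⟩ : ∃ τ : ℝ, ((z / (1 - z * -((τ : ℂ) / z)), v + -((τ : ℂ) / z)) ∈ W ∧
        ‖v + -((τ : ℂ) / z)‖ < 1) ∧ 0 < τ := by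
      have h3 : ∀ᶠ τ : ℝ in 𝓝[>] 0, ((z / (1 - z * -((τ : ℂ) / z)), v + -((τ : ℂ) / z)) ∈ W ∧
        ‖v + -((τ : ℂ) / z)‖ < 1) := (h1.and h2).filter_mono nhdsWithin_le_nhds
      exact (h3.and self_mem_nhdsWithin).exists
    refine main _ hτ1 hτ2.le ?_
    have e : 1 - z * -((τ : ℂ) / z) = ((1 + τ : ℝ) : ℂ) := by
      field_simp
      push_cast
      ring
    rw [e, Complex.norm_real, Real.norm_of_nonneg (by linarith)]
    linarith
  · -- `|v| = 1`
    have hc2 : Continuous fun τ : ℝ => v * om τ - v := by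
      have := om_cont
      fun_prop
    have h1 : ∀ᶠ τ : ℝ in 𝓝 (0 : ℝ), (z / (1 - z * (v * om τ - v)), v + (v * om τ - v)) ∈ W := by
      have : Tendsto (fun τ : ℝ => v * om τ - v) (𝓝 0) (𝓝 0) := by
        have := hc2.tendsto 0
        simpa [om_zero] using this
      exact this.eventually hW'
    have hnorm : ∀ τ, ‖v + (v * om τ - v)‖ ≤ 1 := by
      intro τ
      rw [add_sub_cancel, norm_mul, om_norm, hv1]
      norm_num
    rcases le_total 0 (z * v).im with him | him
    · obtain ⟨τ, hτ1, hτ0⟩ : ∃ τ : ℝ,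
          (z / (1 - z * (v * om τ - v)), v + (v * om τ - v)) ∈ W ∧ 0 < τ := by
        have h3 : ∀ᶠ τ : ℝ in 𝓝[>] 0,
          (z / (1 - z * (v * om τ - v)), v + (v * om τ - v)) ∈ W :=
            h1.filter_mono nhdsWithin_le_nhds
        exact (h3.and self_mem_nhdsWithin).exists
      exact main _ hτ1 (hnorm τ) (normSq_lt (key_ineq hz hv1 hτ0.ne' (by positivity)))
    · obtain ⟨τ, hτ1, hτ0⟩ : ∃ τ : ℝ,
          (z / (1 - z * (v * om τ - v)), v + (v * om τ - v)) ∈ W ∧ τ < 0 := by
        have h3 : ∀ᶠ τ : ℝ in 𝓝[<] 0,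
          (z / (1 - z * (v * om τ - v)), v + (v * om τ - v)) ∈ W :=
            h1.filter_mono nhdsWithin_le_nhds
        exact (h3.and self_mem_nhdsWithin).exists
      exact main _ hτ1 (hnorm τ) (normSq_lt (key_ineq hz hv1 hτ0.ne
        (mul_nonneg_of_nonpos_of_nonpos him hτ0.le)))

/-! ### The product of the two disks inside `ℝ⁴` -/

/-- First complex coordinate. -/
noncomputable def zc (x : E4) : ℂ := ⟨x 0, x 1⟩

/-- Second complex coordinate. -/
noncomputable def vc (x : E4) : ℂ := ⟨x 2, x 3⟩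

/-- The point with given complex coordinates. -/
noncomputable def mk4 (z v : ℂ) : E4 := !₂[z.re, z.im, v.re, v.im]

theorem zc_mk4 (z v : ℂ) : zc (mk4 z v) = z := rfl

theorem vc_mk4 (z v : ℂ) : vc (mk4 z v) = v := rfl

theorem mk4_eta (x : E4) : mk4 (zc x) (vc x) = x := by
  ext i
  fin_cases i <;> rfl

theorem zc_cont : Continuous zc := by
  have : zc = fun x : E4 => (x 0 : ℂ) + (x 1 : ℂ) * Complex.I := by
    funext x
    apply Complex.ext <;> simp [zc]
  rw [this]
  fun_prop

theorem vc_cont : Continuous vc := by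
  have : vc = fun x : E4 => (x 2 : ℂ) + (x 3 : ℂ) * Complex.I := by
    funext x
    apply Complex.ext <;> simp [vc]
  rw [this]
  fun_prop

theorem mk4_cont : Continuous fun q : ℂ × ℂ => mk4 q.1 q.2 := by
  unfold mk4
  have h1 := Complex.continuous_re
  have h2 := Complex.continuous_im
  fun_prop

/-- The product of the disks. -/
def Z : Set E4 := {x | ‖zc x‖ ≤ 2 ∧ ‖vc x‖ ≤ 1}

theorem Z_closed : IsClosed Z :=
  (isClosed_le (zc_cont.norm) continuous_const).inter (isClosed_le (vc_cont.norm) continuous_const)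

theorem Z_convex : Convex ℝ Z := by
  intro x hx y hy a b ha hb hab
  have e1 : zc (a • x + b • y) = a • zc x + b • zc y := by
    apply Complex.ext <;> simp [zc]
  have e2 : vc (a • x + b • y) = a • vc x + b • vc y := by
    apply Complex.ext <;> simp [vc]
  constructor
  · rw [e1]
    refine (norm_add_le _ _).trans ?_
    rw [norm_smul, norm_smul, Real.norm_of_nonneg ha, Real.norm_of_nonneg hb]
    have h1 := mul_le_mul_of_nonneg_left hx.1 ha
    have h2 := mul_le_mul_of_nonneg_left hy.1 hb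
    nlinarith
  · rw [e2]
    refine (norm_add_le _ _).trans ?_
    rw [norm_smul, norm_smul, Real.norm_of_nonneg ha, Real.norm_of_nonneg hb]
    have h1 := mul_le_mul_of_nonneg_left hx.2 ha
    have h2 := mul_le_mul_of_nonneg_left hy.2 hb
    nlinarith

theorem normsq4 (x : E4) : ‖x‖ ^ 2 = ‖zc x‖ ^ 2 + ‖vc x‖ ^ 2 := by
  rw [EuclideanSpace.norm_eq, Real.sq_sqrt (by positivity), Fin.sum_univ_four,
    ← Complex.normSq_eq_norm_sq, ← Complex.normSq_eq_norm_sq, Complex.normSq_apply,
    Complex.normSq_apply]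
  simp only [Real.norm_eq_abs, sq_abs, zc, vc]
  ring

theorem Z_interior : (interior Z).Nonempty := by
  refine ⟨0, mem_interior_iff_mem_nhds.2 ?_⟩
  filter_upwards [ball_mem_nhds (0 : E4) one_pos] with x hx
  rw [mem_ball, dist_zero_right] at hx
  have h := normsq4 x
  have h1 := norm_nonneg x
  have h2 := norm_nonneg (zc x)
  have h3 := norm_nonneg (vc x)
  constructor <;> nlinarith

theorem Z_bounded : Bornology.IsBounded Z := by
  refine (isBounded_closedBall (x := (0 : E4)) (r := 3)).subset ?_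
  rintro x ⟨h1, h2⟩
  rw [mem_closedBall, dist_zero_right]
  have h := normsq4 x
  have h3 := norm_nonneg (zc x)
  have h4 := norm_nonneg (vc x)
  nlinarith [norm_nonneg x]

/-- A homeomorphism from the closed ball onto the product of the disks. -/
theorem exists_homeo : Nonempty (D4 ≃ₜ Z) := by
  obtain ⟨h, _, h2, _⟩ := exists_homeomorph_image_interior_closure_frontier_eq_unitBall
    Z_convex Z_interior Z_bounded
  rw [Z_closed.closure_eq] at h2
  exact ⟨((h.image Z).trans (Homeomorph.setCongr h2)).symm⟩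

/-! ### The open map on the product of the disks -/

/-- The map `(z, v) ↦ [1 + z v : z]` on the product of the disks. -/
noncomputable def Phi (x : Z) : S2 := f (zc x.1) (vc x.1)

theorem Phi_cont : Continuous Phi := by
  have h1 : Continuous fun x : Z => zc x.1 := zc_cont.comp continuous_subtype_val
  have h2 : Continuous fun x : Z => vc x.1 := vc_cont.comp continuous_subtype_val
  have h3 : Continuous fun x : Z => (zc x.1, vc x.1) := h1.prodMk h2
  exact Continuous.comp (g := fun q : ℂ × ℂ => f q.1 q.2) (f := fun x : Z => (zc x.1, vc x.1))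
    f_cont h3

theorem open_interior (x : Z) (hx : ‖zc x.1‖ < 2) {N : Set Z} (hN : N ∈ 𝓝 x) :
    ∀ᶠ p in 𝓝 (Phi x), p ∈ Phi '' N := by
  obtain ⟨G, hG1, hG2, hG3⟩ := local_section (zc x.1) (vc x.1)
  rw [nhds_subtype_eq_comap, mem_comap] at hN
  obtain ⟨N', hN', hsub⟩ := hN
  have hc : ContinuousAt (fun p => mk4 (G p) (vc x.1)) (Phi x) := by
    have h1 : ContinuousAt (fun p => (G p, vc x.1)) (Phi x) := hG1.prodMk continuousAt_const
    exact ContinuousAt.comp (g := fun q : ℂ × ℂ => mk4 q.1 q.2) mk4_cont.continuousAt h1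
  have hval : mk4 (G (Phi x)) (vc x.1) = x.1 := by
    have : G (Phi x) = zc x.1 := hG2
    rw [this, mk4_eta]
  have e1 : ∀ᶠ p in 𝓝 (Phi x), mk4 (G p) (vc x.1) ∈ N' := by
    apply hc
    change N' ∈ 𝓝 (mk4 (G (Phi x)) (vc x.1))
    rw [hval]
    exact hN'
  have e2 : ∀ᶠ p in 𝓝 (Phi x), ‖G p‖ < 2 := by
    have h1 : ContinuousAt (fun p => ‖G p‖) (Phi x) := hG1.norm
    refine h1.eventually (gt_mem_nhds ?_)
    have : G (Phi x) = zc x.1 := hG2
    change ‖G (Phi x)‖ < 2
    rw [this]
    exact hx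
  filter_upwards [e1, e2, hG3] with p h1 h2 h3
  have hmem : mk4 (G p) (vc x.1) ∈ Z := ⟨by rw [zc_mk4]; exact h2.le, by
    rw [vc_mk4]
    exact x.2.2⟩
  refine ⟨⟨_, hmem⟩, hsub h1, ?_⟩
  change f (zc (mk4 (G p) (vc x.1))) (vc (mk4 (G p) (vc x.1))) = p
  rw [zc_mk4, vc_mk4]
  exact h3

theorem Phi_open : IsOpenMap Phi := by
  rw [isOpenMap_iff_nhds_le]
  intro x N hN
  rw [mem_map] at hN
  by_cases hx : ‖zc x.1‖ < 2
  · filter_upwards [open_interior x hx hN] with p hp
    obtain ⟨y, hy, rfl⟩ := hp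
    exact hy
  · have hz : ‖zc x.1‖ = 2 := le_antisymm x.2.1 (not_lt.1 hx)
    rw [nhds_subtype_eq_comap, mem_comap] at hN
    obtain ⟨N', hN', hsub⟩ := hN
    obtain ⟨V, hVN, hVo, hxV⟩ := _root_.mem_nhds_iff.1 hN'
    have hW : (fun q : ℂ × ℂ => mk4 q.1 q.2) ⁻¹' V ∈ 𝓝 (zc x.1, vc x.1) := by
      apply mk4_cont.continuousAt
      change V ∈ 𝓝 (mk4 (zc x.1) (vc x.1))
      rw [mk4_eta]
      exact hVo.mem_nhds hxV
    obtain ⟨z1, v1, h1, h2, h3, h4⟩ := move hz x.2.2 hW
    have hmem : mk4 z1 v1 ∈ Z := ⟨h1.le, h2⟩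
    have hPhi : Phi ⟨mk4 z1 v1, hmem⟩ = Phi x := h4
    have hN1 : Phi ⁻¹' N ∈ 𝓝 (⟨mk4 z1 v1, hmem⟩ : Z) := by
      rw [nhds_subtype_eq_comap, mem_comap]
      exact ⟨V, hVo.mem_nhds h3, (preimage_mono hVN).trans hsub⟩
    have h5 := open_interior ⟨mk4 z1 v1, hmem⟩ h1 hN1
    rw [hPhi] at h5
    filter_upwards [h5] with p hp
    obtain ⟨y, hy, rfl⟩ := hp
    exact hy

/-! ### Injectivity -/

theorem f_inj {z z' v : ℂ} (h : f z v = f z' v) : z = z' := by
  have h1 : xi z v = xi z' v := by
    rw [← cx_f, h, cx_f]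
  have h2 : tt z v = tt z' v := by
    rw [← rt_f, h, rt_f]
  have hn := nn_pos z v
  have hn' := nn_pos z' v
  have hnc : (nn z v : ℂ) ≠ 0 := by exact_mod_cast hn.ne'
  have hnc' : (nn z' v : ℂ) ≠ 0 := by exact_mod_cast hn'.ne'
  -- `|a|²/n` and `a conj(b)/n` determine `[a : b]`
  unfold xi at h1
  unfold tt at h2
  have hA : Complex.normSq (1 + z * v) / nn z v = Complex.normSq (1 + z' * v) / nn z' v := by
    have e1 : Complex.normSq (1 + z * v) / nn z v =
        (1 + (Complex.normSq (1 + z * v) - Complex.normSq z) / nn z v) / 2 := by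
      rw [eq_div_iff two_ne_zero, ← div_self hn.ne', ← add_div]
      rw [div_mul_eq_mul_div]
      congr 1
      unfold nn
      ring
    have e2 : Complex.normSq (1 + z' * v) / nn z' v =
        (1 + (Complex.normSq (1 + z' * v) - Complex.normSq z') / nn z' v) / 2 := by
      rw [eq_div_iff two_ne_zero, ← div_self hn'.ne', ← add_div]
      rw [div_mul_eq_mul_div]
      congr 1
      unfold nn
      ring
    rw [e1, e2, h2]
  have hB : Complex.normSq z / nn z v = Complex.normSq z' / nn z' v := by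
    have e1 : Complex.normSq z / nn z v =
        (1 - (Complex.normSq (1 + z * v) - Complex.normSq z) / nn z v) / 2 := by
      rw [eq_div_iff two_ne_zero, ← div_self hn.ne', ← sub_div]
      rw [div_mul_eq_mul_div]
      congr 1
      unfold nn
      ring
    have e2 : Complex.normSq z' / nn z' v =
        (1 - (Complex.normSq (1 + z' * v) - Complex.normSq z') / nn z' v) / 2 := by
      rw [eq_div_iff two_ne_zero, ← div_self hn'.ne', ← sub_div]
      rw [div_mul_eq_mul_div]
      congr 1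
      unfold nn
      ring
    rw [e1, e2, h2]
  have hC : (1 + z * v) * (starRingEnd ℂ) z / (nn z v : ℂ) =
      (1 + z' * v) * (starRingEnd ℂ) z' / (nn z' v : ℂ) := by
    have h3 : 2 * ((1 + z * v) * (starRingEnd ℂ) z / (nn z v : ℂ)) =
        2 * ((1 + z' * v) * (starRingEnd ℂ) z' / (nn z' v : ℂ)) := by
      rw [← mul_div_assoc, ← mul_div_assoc]; exact h1
    exact mul_left_cancel₀ two_ne_zero h3
  have hBc : z * (starRingEnd ℂ) z / (nn z v : ℂ) =
      z' * (starRingEnd ℂ) z' / (nn z' v : ℂ) := by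
    rw [Complex.mul_conj, Complex.mul_conj]
    exact_mod_cast hB
  -- subtract `v` times the second from the first
  have hD : (starRingEnd ℂ) z / (nn z v : ℂ) = (starRingEnd ℂ) z' / (nn z' v : ℂ) := by
    have e1 : (starRingEnd ℂ) z / (nn z v : ℂ) = (1 + z * v) * (starRingEnd ℂ) z / (nn z v : ℂ) -
        v * (z * (starRingEnd ℂ) z / (nn z v : ℂ)) := by ring
    have e2 : (starRingEnd ℂ) z' / (nn z' v : ℂ) =
        (1 + z' * v) * (starRingEnd ℂ) z' / (nn z' v : ℂ) -
        v * (z' * (starRingEnd ℂ) z' / (nn z' v : ℂ)) := by ring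
    rw [e1, e2, hC, hBc]
  by_cases hz : z = 0
  · subst hz
    rw [map_zero, zero_div] at hD
    rcases div_eq_zero_iff.1 hD.symm with h | h
    · exact (by simpa using h : z' = 0).symm
    · exact absurd h hnc'
  · have hzc : (starRingEnd ℂ) z / (nn z v : ℂ) ≠ 0 := by
      apply div_ne_zero _ hnc
      rw [Ne, map_eq_zero]
      exact hz
    have e1 : z * ((starRingEnd ℂ) z / (nn z v : ℂ)) =
        z' * ((starRingEnd ℂ) z' / (nn z' v : ℂ)) := by
      rw [← mul_div_assoc, ← mul_div_assoc, hBc]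
    rw [← hD] at e1
    exact mul_right_cancel₀ hzc e1

/-- There is an embedding of the closed 4-ball into `S² × ℝ²` whose projection to `S²` is an open
map. -/
theorem result : ∃ e : D4 → S2 × E2, Continuous e ∧ Function.Injective e ∧
    IsOpenMap (fun x => (e x).1) := by
  obtain ⟨θ⟩ := exists_homeo
  have hvc : Continuous fun x : D4 => vc (θ x).1 :=
    vc_cont.comp (continuous_subtype_val.comp θ.continuous)
  refine ⟨fun x => (Phi (θ x), !₂[(vc (θ x).1).re, (vc (θ x).1).im]), ?_, ?_, ?_⟩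
  · apply Continuous.prodMk
    · exact Phi_cont.comp θ.continuous
    · have h1 := Complex.continuous_re.comp hvc
      have h2 := Complex.continuous_im.comp hvc
      simp only [Function.comp_def] at h1 h2
      fun_prop
  · intro x y hxy
    have h1 : Phi (θ x) = Phi (θ y) := congrArg Prod.fst hxy
    have h2 := congrArg Prod.snd hxy
    have hv : vc (θ x).1 = vc (θ y).1 := by
      apply Complex.ext
      · exact congrArg (fun q : E2 => q 0) h2
      · exact congrArg (fun q : E2 => q 1) h2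
    have hz : zc (θ x).1 = zc (θ y).1 := by
      unfold Phi at h1
      rw [hv] at h1
      exact f_inj h1
    apply θ.injective
    apply Subtype.ext
    rw [← mk4_eta (θ x).1, ← mk4_eta (θ y).1, hz, hv]
  · exact Phi_open.comp θ.isOpenMap

end Pool.Agent.Results.MP_2fe121_gt.OpenProjection
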